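import Pool.Agent.Helper87.Birk.Final

/-!
# MP_99598b_lc, Q1: the three remaining Birkhoff closures of the finite 0-simple semigroups

`ℍℙ(C₀)`, `ℍℙ𝕊(C₀)` and `𝕊ℍℙ𝕊(C₀)` are all decidable.
-/

set_option autoImplicit false

namespace Pool.Agent.Results.MP_99598b_lc.AllThreeDecidable

open Pool.Agent.Helper87.Birk

/-- For the class `C₀` of finite `0`-simple semigroups, each of the classes `ℍℙ(C₀)`, `ℍℙ𝕊(C₀)`
and `𝕊ℍℙ𝕊(C₀)` has decidable membership, semigroups being given by multiplication tables. -/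
theorem result :
    DecidableClass (OpH (OpP C0)) ∧
    DecidableClass (OpH (OpP (OpS C0))) ∧
    DecidableClass (OpS (OpH (OpP (OpS C0)))) :=
  ⟨decidable_HP, decidable_HPS, decidable_SHPS⟩

end Pool.Agent.Results.MP_99598b_lc.AllThreeDecidable
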